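import Pool.Agent.Zk33.HG.Defs

/-!
From infinitely many scales to every neighbourhood of the end point (module FIN of helper33).
-/

set_option autoImplicit false

namespace Pool.Agent.Zk77.HG

open H974 H984N H934F Finset H342P H984P MeasureTheory Filter Topology Metric
open Pool.Agent.Zk33.HF Pool.Agent.H389R2.Dim Pool.Agent.Zk33.HG
open scoped ENNReal NNReal

theorem Y0_pos (R : H984N.Rect) : 0 < Y0 R := by
  unfold Y0
  have : 0 < min R.A (min R.B R.H) := lt_min R.hA (lt_min R.hB R.hH)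
  positivity

theorem Cor_sub {R : H984N.Rect} {y : ℝ} (h0 : 0 < y) (h : y ≤ Y0 R) : Cor y ⊆ R.D := by
  rintro z ⟨h1, h2, h3⟩
  unfold Y0 at h
  have hA : min R.A (min R.B R.H) ≤ R.A := min_le_left _ _
  have hB : min R.A (min R.B R.H) ≤ R.B := (min_le_right _ _).trans (min_le_left _ _)
  have hH : min R.A (min R.B R.H) ≤ R.H := (min_le_right _ _).trans (min_le_right _ _)
  have h4 := abs_le.1 h1
  exact ⟨by linarith [h4.1], by linarith [h4.2], by linarith, by linarith⟩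

theorem isClosed_Cor (y : ℝ) : IsClosed (Cor y) := by
  have h1 : IsClosed {z : ℂ | |z.re| ≤ y / 2} :=
    isClosed_le (Complex.continuous_re.abs) continuous_const
  have h2 : IsClosed {z : ℂ | 7 / 2 * y ≤ z.im} := isClosed_le continuous_const Complex.continuous_im
  have h3 : IsClosed {z : ℂ | z.im ≤ 9 / 2 * y} := isClosed_le Complex.continuous_im continuous_const
  have h := h1.inter (h2.inter h3)
  exact h

theorem Cor_ball {y r : ℝ} (h0 : 0 < y) (h : 5 * y < r) : Cor y ⊆ ball 0 r := by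
  rintro z ⟨h1, h2, h3⟩
  rw [mem_ball_zero_iff]
  have h4 := Complex.norm_le_abs_re_add_abs_im z
  have h5 : |z.im| = z.im := abs_of_nonneg (by linarith)
  rw [h5] at h4
  linarith

theorem isCompact_Cor {y : ℝ} (h0 : 0 < y) : IsCompact (Cor y) :=
  Metric.isCompact_of_isClosed_isBounded (isClosed_Cor y)
    (isBounded_ball.subset (Cor_ball h0 (show 5 * y < 5 * y + 1 by linarith)))

theorem isClosed_comm {k : ℕ} (ω : Fin k → X) : IsClosed (comm ω) :=
  isClosed_iInter fun i => (isCompact_range (ω i).1.continuous).isClosed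

/-- Thick sets are met in every neighbourhood of the end point, almost surely. -/
theorem thick (hWk : StWk) {k : ℕ} (R : Fin k → H984N.Rect) (μ : Fin k → ProbabilityMeasure X)
    (hμ : ∀ i, IsLimit (R i) (μ i)) {S : Set ℂ} (hS : IsClosed S) {s t c : ℝ} (ht : 0 ≤ t)
    (hts : t + (k : ℝ) / 4 < s) (hc : 0 < c)
    (h : ∀ Y : ℝ, 0 < Y → ∃ y : ℝ, 0 < y ∧ y < Y ∧ Content s (c * y ^ s) (S ∩ Cor y)) :
    ∀ᵐ ω ∂(Pm μ), ∀ r : ℝ, 0 < r → ((S ∩ ⋂ i, (R i).D) ∩ Metric.ball 0 r ∩ comm ω).Nonempty ∧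
      ENNReal.ofReal t ≤ dimH ((S ∩ ⋂ i, (R i).D) ∩ Metric.ball 0 r ∩ comm ω) := by
  obtain ⟨κ, hκ, hW⟩ := hWk k s t c ht hts hc
  obtain ⟨Y, hY0, hY⟩ : ∃ Y : ℝ, 0 < Y ∧ ∀ i, Y ≤ Y0 (R i) := by
    rcases isEmpty_or_nonempty (Fin k) with he | hne
    · exact ⟨1, one_pos, fun i => he.elim i⟩
    · obtain ⟨i0, hi0⟩ := Finite.exists_min fun i => Y0 (R i)
      exact ⟨Y0 (R i0), Y0_pos _, hi0⟩
  -- the scales
  set Q : Type := {y : ℝ // 0 < y ∧ y < Y ∧ Content s (c * y ^ s) (S ∩ Cor y)} with hQ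
  obtain ⟨y0, hy0, hy1, hy2⟩ := h Y hY0
  have hstep : ∀ q : Q, ∃ q' : Q, q'.1 ≤ q.1 / 20 := by
    intro q
    obtain ⟨y, h1, h2, h3⟩ := h (q.1 / 20) (div_pos q.2.1 (by norm_num))
    have h4 := q.2.1
    have h5 := q.2.2.1
    exact ⟨⟨y, h1, by linarith, h3⟩, h2.le⟩
  choose g hg using hstep
  set y : ℕ → ℝ := fun i => (g^[i] ⟨y0, hy0, hy1, hy2⟩).1 with hy
  have hpos : ∀ i, 0 < y i := fun i => (g^[i] ⟨y0, hy0, hy1, hy2⟩).2.1
  have hle : ∀ i, y i ≤ Y := fun i => (g^[i] ⟨y0, hy0, hy1, hy2⟩).2.2.1.le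
  have hcon : ∀ i, Content s (c * y i ^ s) (S ∩ Cor (y i)) :=
    fun i => (g^[i] ⟨y0, hy0, hy1, hy2⟩).2.2.2
  have hdec : ∀ i, y (i + 1) ≤ y i / 20 := by
    intro i
    rw [hy]
    simp only
    rw [Function.iterate_succ_apply']
    exact hg _
  have hcomp : ∀ i, IsCompact (S ∩ Cor (y i)) := fun i => (isCompact_Cor (hpos i)).inter_left hS
  have hSc : Sc s c Y y (fun i => S ∩ Cor (y i)) :=
    ⟨hpos, hle, hdec, hcomp, fun i => Set.inter_subset_right, hcon⟩
  have hlim : Tendsto y atTop (𝓝 0) := by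
    have h1 : ∀ i, y i ≤ Y * (1 / 20) ^ i := by
      intro i
      induction i with
      | zero => rw [pow_zero, mul_one]; exact hle 0
      | succ i ih =>
        have := hdec i
        rw [pow_succ]
        linarith
    have h2 : Tendsto (fun i : ℕ => Y * (1 / 20 : ℝ) ^ i) atTop (𝓝 0) := by
      have := (tendsto_pow_atTop_nhds_zero_of_lt_one (r := (1 / 20 : ℝ)) (by norm_num)
        (by norm_num)).const_mul Y
      rwa [mul_zero] at this
    exact squeeze_zero (fun i => (hpos i).le) h1 h2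
  filter_upwards [hW R μ hμ Y hY y _ hSc] with ω hω r hr
  have hev : ∀ᶠ i in atTop, 5 * y i < r := by
    have h1 := hlim.const_mul 5
    rw [mul_zero] at h1
    exact h1.eventually_lt_const hr
  obtain ⟨i, hi1, hi2⟩ := (hω.and_eventually hev).exists
  have hsub : S ∩ Cor (y i) ∩ comm ω ⊆ (S ∩ ⋂ i, (R i).D) ∩ Metric.ball 0 r ∩ comm ω := by
    rintro z ⟨⟨hz1, hz2⟩, hz3⟩
    exact ⟨⟨⟨hz1, Set.mem_iInter.2 fun j => Cor_sub (hpos i) ((hle i).trans (hY j)) hz2⟩,
      Cor_ball (hpos i) hi2 hz2⟩, hz3⟩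
  have hp : 0 < κ * y i ^ t := mul_pos hκ (Real.rpow_pos_of_pos (hpos i) t)
  refine ⟨(nonempty_of_content hp hi1).mono hsub, ?_⟩
  rcases ht.eq_or_lt with h0 | h0
  · rw [← h0, ENNReal.ofReal_zero]
    exact zero_le
  · exact (le_dimH_of_content h0 hp ((hcomp i).inter_right (isClosed_comm ω)) hi1).trans
      (dimH_mono hsub)

end Pool.Agent.Zk77.HG
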